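import Pool.Agent.Helper26.TK.Pos

/-!
MP_c88f67_an, packet TK-R1: quantitative Eberlein-Smulian.
-/

namespace Pool.Agent.Helper89.TK

open Set Filter Topology
open Pool.Agent.Helper26.TK
open NormedSpace

variable {X : Type} [NormedAddCommGroup X] [NormedSpace ℝ X]

/-- Helly type selection of a functional -/
theorem helly (z : StrongDual ℝ (StrongDual ℝ X)) {r : ℝ} (hr : 0 < r)
    (hz : ∀ x : X, r ≤ ‖z - inclusionInDoubleDual ℝ X x‖) (G : Finset X) :
    ∃ f : StrongDual ℝ X, ‖f‖ ≤ 1 ∧ r / 2 < z f ∧ ∀ x ∈ G, f x = 0 := by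
  classical
  by_contra hno
  push Not at hno
  set W : Submodule ℝ (StrongDual ℝ X) :=
    ⨅ x : G, LinearMap.ker (inclusionInDoubleDual ℝ X (x : X)).toLinearMap with hW
  have hWm : ∀ f : StrongDual ℝ X, f ∈ W ↔ ∀ x ∈ G, f x = 0 := by
    intro f
    rw [hW, Submodule.mem_iInf]
    constructor
    · intro h x hx
      have := h ⟨x, hx⟩
      rw [LinearMap.mem_ker] at this
      exact this
    · intro h x
      rw [LinearMap.mem_ker]
      exact h x.1 x.2
  -- the norm of `z` on `W`
  have hbound : ∀ f ∈ W, |z f| ≤ r / 2 * ‖f‖ := by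
    intro f hf
    have key : ∀ g ∈ W, z g ≤ r / 2 * ‖g‖ := by
      intro g hg
      by_cases h0 : g = 0
      · rw [h0]; simp
      · by_contra hlt
        push Not at hlt
        have hgn : 0 < ‖g‖ := norm_pos_iff.2 h0
        have h1 : ‖(‖g‖)⁻¹ • g‖ ≤ 1 := by
          rw [norm_smul, norm_inv, norm_norm, inv_mul_cancel₀ hgn.ne']
        have h2 : r / 2 < z ((‖g‖)⁻¹ • g) := by
          rw [map_smul, smul_eq_mul, lt_inv_mul_iff₀ hgn]
          linarith
        obtain ⟨x, hx, hx2⟩ := hno _ h1 h2
        apply hx2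
        have := (hWm g).1 hg x hx
        rw [ContinuousLinearMap.smul_apply, this, smul_zero]
    rw [abs_le]
    constructor
    · have := key (-f) (W.neg_mem hf)
      rw [map_neg, norm_neg] at this
      linarith
    · exact key f hf
  obtain ⟨zt, hzt1, hzt2⟩ := exists_extension_norm_eq (𝕜 := ℝ) W (z.comp W.subtypeL)
  have hnorm : ‖zt‖ ≤ r / 2 := by
    rw [hzt2]
    apply ContinuousLinearMap.opNorm_le_bound _ (by linarith)
    intro f
    exact hbound f.1 f.2
  have hker : ⨅ x : G, LinearMap.ker (inclusionInDoubleDual ℝ X (x : X)).toLinearMap ≤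
      LinearMap.ker (z - zt).toLinearMap := by
    intro f hf
    rw [LinearMap.mem_ker]
    have := hzt1 ⟨f, hf⟩
    change z f - zt f = 0
    have h3 : zt f = z f := this
    rw [h3, sub_self]
  have hspan := mem_span_of_iInf_ker_le_ker hker
  have hrange : ∀ w ∈ Submodule.span ℝ (Set.range fun x : G =>
      (inclusionInDoubleDual ℝ X (x : X)).toLinearMap),
      ∃ x : X, (inclusionInDoubleDual ℝ X x).toLinearMap = w := by
    intro w hw
    induction hw using Submodule.span_induction with
    | mem w h =>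
      obtain ⟨x, rfl⟩ := h
      exact ⟨x, rfl⟩
    | zero => exact ⟨0, by rw [map_zero]; rfl⟩
    | add u v _ _ hu hv =>
      obtain ⟨x, rfl⟩ := hu
      obtain ⟨y, rfl⟩ := hv
      exact ⟨x + y, by rw [map_add]; rfl⟩
    | smul a u _ hu =>
      obtain ⟨x, rfl⟩ := hu
      exact ⟨a • x, by rw [map_smul]; rfl⟩
  obtain ⟨x, hx⟩ := hrange _ hspan
  have hx' : z - inclusionInDoubleDual ℝ X x = zt := by
    ext f
    have := DFunLike.congr_fun hx f
    have h4 : inclusionInDoubleDual ℝ X x f = z f - zt f := this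
    rw [ContinuousLinearMap.sub_apply, h4]
    ring
  have := hz x
  rw [hx'] at this
  linarith

theorem stmtR1 : StmtR1 := by
  classical
  intro X _ _ _ d hd A hA
  set ι := inclusionInDoubleDualWeak ℝ X with hι
  set S : Set (WeakSpace ℝ X) := (toWeakSpace ℝ X) '' (d '' A) with hS
  have hsub : closure (ι '' S) ⊆ Set.range ι := by
    intro z hz
    by_contra hzr
    set z' : StrongDual ℝ (StrongDual ℝ X) := WeakDual.toStrongDual z with hz'
    have hzapp : ∀ f : StrongDual ℝ X, z' f = z f := fun f => rfl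
    have hcl : IsClosed (Set.range (inclusionInDoubleDualLi ℝ (E := X))) :=
      (inclusionInDoubleDualLi ℝ (E := X)).isometry.isUniformInducing.isComplete_range.isClosed
    have hzn : z' ∉ Set.range (inclusionInDoubleDualLi ℝ (E := X)) := by
      rintro ⟨x, hx⟩
      apply hzr
      refine ⟨toWeakSpace ℝ X x, ?_⟩
      apply WeakDual.toStrongDual.injective
      rw [← hz', ← hx]
      rfl
    have hpos := (hcl.notMem_iff_infDist_pos ⟨_, Set.mem_range_self (0 : X)⟩).1 hzn
    set r := Metric.infDist z' (Set.range (inclusionInDoubleDualLi ℝ (E := X))) with hr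
    have hdist : ∀ x : X, r ≤ ‖z' - inclusionInDoubleDual ℝ X x‖ := by
      intro x
      have := Metric.infDist_le_dist_of_mem (x := z')
        (Set.mem_range_self (f := inclusionInDoubleDualLi ℝ (E := X)) x)
      exact this.trans (le_of_eq (dist_eq_norm z' (inclusionInDoubleDual ℝ X x)))
    obtain ⟨s, hs1, hs2⟩ := exists_seq_of_forall_finset_exists
      (fun p : ℕ × StrongDual ℝ X => p.1 ∈ A ∧ ‖p.2‖ ≤ 1 ∧ r / 2 < z' p.2 ∧
        |p.2 (d p.1) - z' p.2| ≤ r / 16)
      (fun p q : ℕ × StrongDual ℝ X => q.2 (d p.1) = 0 ∧ |p.2 (d q.1) - z' p.2| ≤ r / 16)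
      (by
        intro F _
        obtain ⟨f, hf1, hf2, hf3⟩ := helly z' hpos hdist (F.image fun p => d p.1)
        set U : Set (WeakDual ℝ (StrongDual ℝ X)) :=
          {w | ∀ g ∈ insert f (F.image Prod.snd), |w g - z g| < r / 16} with hU
        have hUo : IsOpen U := by
          have : U = ⋂ g ∈ insert f (F.image Prod.snd), {w | |w g - z g| < r / 16} := by
            ext w; simp [hU]
          rw [this]
          apply isOpen_biInter_finset
          intro g _
          apply isOpen_lt _ continuous_const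
          exact ((WeakDual.eval_continuous g).sub continuous_const).abs
        have hzU : z ∈ U := by
          intro g _
          rw [sub_self, abs_zero]
          linarith
        obtain ⟨w, hw1, hw2⟩ := mem_closure_iff.1 hz U hUo hzU
        obtain ⟨_, ⟨_, ⟨n, hn, rfl⟩, rfl⟩, rfl⟩ := hw2
        have happ : ∀ g : StrongDual ℝ X, ι (toWeakSpace ℝ X (d n)) g = g (d n) := fun g => rfl
        refine ⟨(n, f), ⟨hn, hf1, hf2, ?_⟩, ?_⟩
        · have := hw1 f (Finset.mem_insert_self _ _)
          rw [happ] at this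
          exact this.le
        · intro p hp
          refine ⟨hf3 _ (Finset.mem_image_of_mem _ hp), ?_⟩
          have := hw1 p.2 (Finset.mem_insert_of_mem (Finset.mem_image_of_mem _ hp))
          rw [happ] at this
          exact this.le)
    apply hA (r / 4) (by linarith)
    refine ⟨fun i => (s i).1, fun i => (hs1 i).1, ?_⟩
    intro k u hu v hv
    have h1 : (s k).2 u ≤ 0 := by
      have : convexHull ℝ ((fun i => d (s i).1) '' Set.Iio k) ⊆ {w | (s k).2 w ≤ 0} := by
        apply convexHull_min
        · rintro _ ⟨i, hi, rfl⟩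
          exact (hs2 i k hi).1.le
        · exact convex_halfSpace_le (s k).2.isLinear 0
      exact this hu
    have h2 : r / 2 - r / 16 ≤ (s k).2 v := by
      have : convexHull ℝ ((fun i => d (s i).1) '' Set.Ici k) ⊆
          {w | r / 2 - r / 16 ≤ (s k).2 w} := by
        apply convexHull_min
        · rintro _ ⟨i, hi, rfl⟩
          have h3 : |(s k).2 (d (s i).1) - z' (s k).2| ≤ r / 16 := by
            rcases (Set.mem_Ici.1 hi).eq_or_lt with h | h
            · rw [← h]
              exact (hs1 k).2.2.2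
            · exact (hs2 k i h).2
          have h4 := (hs1 k).2.2.1
          have h5 := (abs_le.1 h3).1
          simp only [Set.mem_ofPred_eq]
          linarith
        · exact convex_halfSpace_ge (s k).2.isLinear _
      exact this hv
    have h3 : |(s k).2 (u - v)| ≤ ‖u - v‖ := by
      have := (s k).2.le_of_opNorm_le (hs1 k).2.1 (u - v)
      rw [one_mul] at this
      exact this
    rw [map_sub] at h3
    have h4 := (abs_le.1 h3).1
    linarith
  have hb : Bornology.IsBounded ((toWeakSpace ℝ X) ⁻¹' S) := by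
    rw [hS, Set.preimage_image_eq _ (toWeakSpace ℝ X).injective]
    apply (Metric.isBounded_closedBall (x := (0 : X)) (r := 1)).subset
    rintro _ ⟨n, _, rfl⟩
    rw [mem_closedBall_zero_iff]
    exact hd n
  have hcomp := isCompact_closure_of_isBounded ℝ X S hb hsub
  refine ⟨⟨(toWeakSpace ℝ X) ⁻¹' closure S, ?_, ?_⟩, ?_⟩
  · intro x hx
    have hconv := Convex.toWeakSpace_closure ℝ (convex_closedBall (0 : X) 1)
    rw [(Metric.isClosed_closedBall (x := (0 : X)) (ε := 1)).closure_eq] at hconv
    have h1 : closure S ⊆ closure ((toWeakSpace ℝ X) '' Metric.closedBall (0 : X) 1) := by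
      apply closure_mono
      rw [hS]
      apply Set.image_mono
      rintro _ ⟨n, _, rfl⟩
      rw [mem_closedBall_zero_iff]
      exact hd n
    rw [← hconv] at h1
    obtain ⟨y, hy, hyx⟩ := h1 hx
    rw [(toWeakSpace ℝ X).injective hyx] at hy
    exact hy
  · rw [Set.image_preimage_eq _ (toWeakSpace ℝ X).surjective]
    exact hcomp
  · intro n hn
    have h1 : toWeakSpace ℝ X (d n) ∈ closure S := subset_closure ⟨d n, ⟨n, hn, rfl⟩, rfl⟩
    exact h1

end Pool.Agent.Helper89.TK
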